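import Pool.Agent.Run7.h601.ZN.Stm

/-!
# Project ZN, piece KID
-/

set_option autoImplicit false

namespace Pool.Agent.Run7.h722.ZN

open Finset
open Pool.Agent.Run7.h601.ZN

/-! ### Signs -/

theorem ais {k : ℕ} (f : Equiv.Perm (Fin k)) (x : Fin k) : f (f⁻¹ x) = x := f.apply_symm_apply x

theorem ias {k : ℕ} (f : Equiv.Perm (Fin k)) (x : Fin k) : f⁻¹ (f x) = x := f.symm_apply_apply x

theorem kk_comp {k : ℕ} (l m : Fin k → ℤ) (σ : Equiv.Perm (Fin k)) :
    kk l (fun x => m (σ x)) = (Equiv.Perm.sign σ : ℤ) * kk l m := by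
  unfold kk
  rw [mul_sum]
  refine Fintype.sum_equiv (Equiv.mulRight σ⁻¹) _ _ fun τ => ?_
  have h1 : (∀ i, m (σ i) = l (τ i)) ↔ (∀ i, m i = l ((Equiv.mulRight σ⁻¹ τ) i)) := by
    constructor
    · intro h i
      have := h (σ⁻¹ i)
      rw [ais] at this
      exact this
    · intro h i
      have := h (σ i)
      change m (σ i) = l (τ (σ⁻¹ (σ i))) at this
      rw [ias] at this
      exact this
  by_cases h : ∀ i, m (σ i) = l (τ i)
  · rw [if_pos h, if_pos (h1.1 h)]
    change (Equiv.Perm.sign τ : ℤ) = (Equiv.Perm.sign σ : ℤ) * (Equiv.Perm.sign (τ * σ⁻¹) : ℤ)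
    rw [Equiv.Perm.sign_mul, Equiv.Perm.sign_inv, mul_comm (Equiv.Perm.sign τ)]
    rw [Units.val_mul, ← mul_assoc, ← Units.val_mul, Int.units_mul_self, Units.val_one, one_mul]
  · rw [if_neg h, if_neg (fun h2 => h (h1.2 h2)), mul_zero]

theorem kk_comp_left {k : ℕ} (l m : Fin k → ℤ) (σ : Equiv.Perm (Fin k)) :
    kk (fun x => l (σ x)) m = (Equiv.Perm.sign σ : ℤ) * kk l m := by
  unfold kk
  rw [mul_sum]
  refine Fintype.sum_equiv (Equiv.mulLeft σ) _ _ fun τ => ?_
  have h1 : (∀ i, m i = l (σ (τ i))) ↔ (∀ i, m i = l ((Equiv.mulLeft σ τ) i)) := Iff.rfl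
  by_cases h : ∀ i, m i = l (σ (τ i))
  · rw [if_pos h, if_pos (h1.1 h)]
    change (Equiv.Perm.sign τ : ℤ) = (Equiv.Perm.sign σ : ℤ) * (Equiv.Perm.sign (σ * τ) : ℤ)
    rw [Equiv.Perm.sign_mul, Units.val_mul, ← mul_assoc, ← Units.val_mul, Int.units_mul_self,
      Units.val_one, one_mul]
  · rw [if_neg h, if_neg (fun h2 => h (h1.2 h2)), mul_zero]

theorem kk_zero_right {k : ℕ} (l m : Fin k → ℤ) {a b : Fin k} (hab : a ≠ b) (h : m a = m b) :
    kk l m = 0 := by
  have h1 := kk_comp l m (Equiv.swap a b)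
  have h2 : (fun x => m (Equiv.swap a b x)) = m := by
    funext x
    rcases eq_or_ne x a with rfl | hxa
    · rw [Equiv.swap_apply_left, h]
    · rcases eq_or_ne x b with rfl | hxb
      · rw [Equiv.swap_apply_right, h]
      · rw [Equiv.swap_apply_of_ne_of_ne hxa hxb]
  rw [h2, Equiv.Perm.sign_swap hab] at h1
  push_cast at h1
  linarith

theorem kk_zero_left {k : ℕ} (l m : Fin k → ℤ) {a b : Fin k} (hab : a ≠ b) (h : l a = l b) :
    kk l m = 0 := by
  have h1 := kk_comp_left l m (Equiv.swap a b)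
  have h2 : (fun x => l (Equiv.swap a b x)) = l := by
    funext x
    rcases eq_or_ne x a with rfl | hxa
    · rw [Equiv.swap_apply_left, h]
    · rcases eq_or_ne x b with rfl | hxb
      · rw [Equiv.swap_apply_right, h]
      · rw [Equiv.swap_apply_of_ne_of_ne hxa hxb]
  rw [h2, Equiv.Perm.sign_swap hab] at h1
  push_cast at h1
  linarith

/-! ### Injective nonnegative vectors -/

theorem sum_fin (k : ℕ) : ∑ i : Fin k, ((i : ℕ) : ℤ) = (k.choose 2 : ℕ) := by
  rw [Fin.sum_univ_eq_sum_range (fun i => (i : ℤ)) k, ← Nat.cast_sum, Finset.sum_range_id,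
    Nat.choose_two_right]

theorem inj_sort {k : ℕ} (l : Fin k → ℤ) (h0 : ∀ i, 0 ≤ l i) (hl : Function.Injective l) :
    ∃ σ : Equiv.Perm (Fin k), ∀ i : Fin k, ((i : ℕ) : ℤ) ≤ l (σ i) := by
  refine ⟨Tuple.sort l, ?_⟩
  have h1 : StrictMono (l ∘ Tuple.sort l) :=
    (Tuple.monotone_sort l).strictMono_of_injective (hl.comp (Tuple.sort l).injective)
  have h2 : ∀ n : ℕ, ∀ h : n < k, (n : ℤ) ≤ (l ∘ Tuple.sort l) ⟨n, h⟩ := by
    intro n
    induction n with
    | zero => intro h; exact_mod_cast h0 _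
    | succ n ih =>
      intro h
      have h3 := ih (by omega)
      have h4 : (l ∘ Tuple.sort l) ⟨n, by omega⟩ < (l ∘ Tuple.sort l) ⟨n + 1, h⟩ :=
        h1 (by rw [Fin.lt_def]; exact Nat.lt_succ_self n)
      push_cast
      omega
  intro i
  exact h2 i i.2

theorem not_inj {k : ℕ} (l : Fin k → ℤ) (h0 : ∀ i, 0 ≤ l i)
    (hs : ∑ i, l i < (k.choose 2 : ℕ)) : ∃ a b : Fin k, a ≠ b ∧ l a = l b := by
  by_contra hcon
  push Not at hcon
  have hl : Function.Injective l := fun a b h => by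
    by_contra hab
    exact hcon a b hab h
  obtain ⟨σ, hσ⟩ := inj_sort l h0 hl
  have h1 : ∑ i : Fin k, ((i : ℕ) : ℤ) ≤ ∑ i, l (σ i) := sum_le_sum fun i _ => hσ i
  rw [Equiv.sum_comp σ l, sum_fin] at h1
  omega

theorem inj_perm {k : ℕ} (l : Fin k → ℤ) (h0 : ∀ i, 0 ≤ l i) (hl : Function.Injective l)
    (hs : ∑ i, l i = (k.choose 2 : ℕ)) : ∃ ρ : Equiv.Perm (Fin k), ∀ i, l i = ((ρ i : ℕ) : ℤ) := by
  obtain ⟨σ, hσ⟩ := inj_sort l h0 hl
  have h1 : ∑ i : Fin k, ((i : ℕ) : ℤ) = ∑ i, l (σ i) := by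
    rw [Equiv.sum_comp σ l, sum_fin, hs]
  have h2 := (sum_eq_sum_iff_of_le (s := univ) (f := fun i : Fin k => ((i : ℕ) : ℤ))
    (g := fun i => l (σ i)) (fun i _ => hσ i)).1 h1
  refine ⟨σ⁻¹, fun i => ?_⟩
  have h3 := h2 (σ⁻¹ i) (mem_univ _)
  rw [ais] at h3
  exact h3.symm

/-! ### Moving `r` from `j` to `i` -/

/-- `m + r (e_i - e_j)` -/
def mv {k : ℕ} (m : Fin k → ℤ) (i j : Fin k) (r : ℤ) : Fin k → ℤ :=
  fun x => m x + (if x = i then r else 0) - (if x = j then r else 0)

theorem mv_neg {k : ℕ} (m : Fin k → ℤ) (i j : Fin k) (r : ℤ) : mv m j i r = mv m i j (-r) := by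
  funext x
  unfold mv
  split_ifs <;> ring

theorem mv_zero {k : ℕ} (m : Fin k → ℤ) (i j : Fin k) : mv m i j 0 = m := by
  funext x
  unfold mv
  split_ifs <;> ring

theorem mv_swap {k : ℕ} (m : Fin k → ℤ) {i j : Fin k} (hij : i ≠ j) (r : ℤ) :
    mv m i j (m j - m i - r) = fun x => mv m i j r (Equiv.swap i j x) := by
  funext x
  unfold mv
  rcases eq_or_ne x i with rfl | hxi
  · rw [Equiv.swap_apply_left, if_pos rfl, if_neg hij, if_neg hij.symm, if_pos rfl]
    ring
  · rcases eq_or_ne x j with rfl | hxj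
    · rw [Equiv.swap_apply_right, if_pos rfl, if_pos rfl, if_neg hij, if_neg hij.symm]
      ring
    · rw [Equiv.swap_apply_of_ne_of_ne hxi hxj, if_neg hxi, if_neg hxj, if_neg hxi, if_neg hxj]

theorem kk_neg {k : ℕ} (l m : Fin k → ℤ) (hl : ∀ i, 0 ≤ l i) {a : Fin k} (ha : m a < 0) :
    kk l m = 0 := by
  unfold kk
  refine sum_eq_zero fun τ _ => ?_
  rw [if_neg]
  intro h
  have := h a
  have := hl (τ a)
  omega

theorem sum_sym (f : ℤ → ℤ) (L : ℕ) :
    ∑ r ∈ Icc (-(L : ℤ)) L, f r = f 0 + ∑ r ∈ Icc 1 L, (f (r : ℕ) + f (-((r : ℕ) : ℤ))) := by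
  induction L with
  | zero => simp
  | succ L ih =>
    have h1 : Icc (-((L + 1 : ℕ) : ℤ)) ((L + 1 : ℕ) : ℤ) =
        insert (-((L + 1 : ℕ) : ℤ)) (insert ((L + 1 : ℕ) : ℤ) (Icc (-(L : ℤ)) L)) := by
      ext x
      simp only [mem_insert, mem_Icc]
      push_cast
      omega
    rw [h1, sum_insert, sum_insert, ih, Finset.sum_Icc_succ_top (by omega)]
    · ring
    · simp only [mem_Icc]; push_cast; omega
    · simp only [mem_insert, mem_Icc]; push_cast; omega

theorem sum_anti (f : ℤ → ℤ) (a b : ℤ) (L : ℕ) (haL : a ≤ L)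
    (hbL : b ≤ L) (hf : ∀ r, r < -a ∨ b < r → f r = 0) (hq : ∀ r, f (b - a - r) = - f r) :
    ∑ r ∈ Icc 1 L, (f (r : ℕ) + f (-((r : ℕ) : ℤ))) = - f 0 := by
  have h1 := sum_sym f L
  have h2 : ∑ r ∈ Icc (-a) b, f r = ∑ r ∈ Icc (-(L : ℤ)) L, f r := by
    refine sum_subset (fun x hx => ?_) fun x _ hx => hf x ?_
    · rw [mem_Icc] at hx ⊢; omega
    · rw [mem_Icc] at hx; omega
  have h3 : ∑ r ∈ Icc (-a) b, f r = ∑ r ∈ Icc (-a) b, f (b - a - r) := by
    refine sum_bij' (fun r _ => b - a - r) (fun r _ => b - a - r) ?_ ?_ ?_ ?_ ?_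
    · intro r hr; rw [mem_Icc] at hr ⊢; omega
    · intro r hr; rw [mem_Icc] at hr ⊢; omega
    · intro r _; ring
    · intro r _; ring
    · intro r _
      rw [show b - a - (b - a - r) = r by ring]
  have h4 : ∑ r ∈ Icc (-a) b, f (b - a - r) = - ∑ r ∈ Icc (-a) b, f r := by
    rw [← sum_neg_distrib]
    exact sum_congr rfl fun r _ => hq r
  rw [h4] at h3
  have h5 : ∑ r ∈ Icc (-a) b, f r = 0 := by linarith
  rw [← h2, h5] at h1
  linarith

theorem off_pair {k : ℕ} (l m : Fin k → ℤ) (hl : ∀ i, 0 ≤ l i) (hm : ∀ i, 0 ≤ m i)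
    {i j : Fin k} (hij : i ≠ j) (L : ℕ) (hL : ∀ i, m i ≤ L) :
    ∑ r ∈ Icc 1 L, (kk l (mv m i j (r : ℕ)) + kk l (mv m j i (r : ℕ))) = - kk l m := by
  have h1 := sum_anti (fun r => kk l (mv m i j r)) (m i) (m j) L (hL i) (hL j)
    ?_ ?_
  · simp only [mv_zero] at h1
    rw [← h1]
    refine sum_congr rfl fun r _ => ?_
    rw [mv_neg m i j]
  · rintro r (hr | hr)
    · refine kk_neg l _ hl (a := i) ?_
      unfold mv
      rw [if_pos rfl, if_neg hij]
      omega
    · refine kk_neg l _ hl (a := j) ?_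
      unfold mv
      rw [if_pos rfl, if_neg hij.symm]
      omega
  · intro r
    change kk l (mv m i j (m j - m i - r)) = _
    rw [mv_swap m hij, kk_comp l (mv m i j r) (Equiv.swap i j), Equiv.Perm.sign_swap hij]
    push_cast
    ring

/-! ### The left side -/

theorem cond_iff {k : ℕ} (l m : Fin k → ℤ) (hl : ∀ i, 0 ≤ l i) (hm : ∀ i, 0 ≤ m i)
    (τ : Equiv.Perm (Fin k)) (i j : Fin k) (r : ℕ) :
    (((∀ x, 0 ≤ sb l (τ i) r x) ∧ (∀ x, 0 ≤ sb m j r x)) ∧
      ∀ x, sb m j r x = sb l (τ i) r (τ x)) ↔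
    (if i = j then ((∀ x, m x = l (τ x)) ∧ (r : ℤ) ≤ m j) else
      ∀ x, mv m i j r x = l (τ x)) := by
  have hsb : ∀ x, sb l (τ i) r (τ x) = if x = i then l (τ x) - r else l (τ x) := by
    intro x
    unfold sb
    by_cases h : x = i
    · rw [if_pos h, if_pos (by rw [h])]
    · rw [if_neg h, if_neg (fun h2 => h (τ.injective h2))]
  by_cases hij : i = j
  · rw [if_pos hij]
    subst hij
    constructor
    · rintro ⟨⟨_, h2⟩, h3⟩
      refine ⟨fun x => ?_, ?_⟩
      · have h4 := h3 x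
        rw [hsb] at h4
        unfold sb at h4
        by_cases hx : x = i
        · rw [if_pos hx, if_pos hx] at h4; linarith
        · rw [if_neg hx, if_neg hx] at h4; exact h4
      · have h4 := h2 i
        unfold sb at h4
        rw [if_pos rfl] at h4
        linarith
    · rintro ⟨h1, h2⟩
      refine ⟨⟨fun x => ?_, fun x => ?_⟩, fun x => ?_⟩
      · unfold sb
        split_ifs with hx
        · rw [hx, ← h1]; linarith
        · exact hl x
      · unfold sb
        split_ifs with hx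
        · rw [hx]; linarith
        · exact hm x
      · rw [hsb]
        unfold sb
        by_cases hx : x = i
        · rw [if_pos hx, if_pos hx, h1]
        · rw [if_neg hx, if_neg hx, h1]
  · rw [if_neg hij]
    have key : (∀ x, sb m j r x = sb l (τ i) r (τ x)) ↔ ∀ x, mv m i j r x = l (τ x) := by
      refine forall_congr' fun x => ?_
      rw [hsb]
      unfold sb mv
      by_cases hxi : x = i
      · have hxj : x ≠ j := fun h => hij (hxi ▸ h)
        rw [if_neg hxj, if_pos hxi, if_pos hxi, if_neg hxj]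
        constructor <;> intro h <;> linarith
      · by_cases hxj : x = j
        · rw [if_pos hxj, if_neg hxi, if_neg hxi, if_pos hxj]
          constructor <;> intro h <;> linarith
        · rw [if_neg hxj, if_neg hxi, if_neg hxi, if_neg hxj]
          constructor <;> intro h <;> linarith
    rw [key]
    constructor
    · exact fun h => h.2
    · intro h
      have h5 := key.2 h
      have h6 : ∀ x, 0 ≤ sb m j r x := by
        intro x
        unfold sb
        by_cases hxj : x = j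
        · rw [if_pos hxj]
          have h7 := h x
          have h8 := hl (τ x)
          unfold mv at h7
          rw [if_neg (fun h9 => hij (h9.symm.trans hxj)), if_pos hxj] at h7
          linarith
        · rw [if_neg hxj]; exact hm x
      refine ⟨⟨fun x => ?_, h6⟩, h⟩
      have h7 := h5 (τ⁻¹ x)
      rw [ais] at h7
      rw [← h7]
      exact h6 _

theorem left_r {k : ℕ} (l m : Fin k → ℤ) (hl : ∀ i, 0 ≤ l i) (hm : ∀ i, 0 ≤ m i) (r : ℕ) :
    ∑ i, ∑ j, kp (sb l i r) (sb m j r) =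
      (∑ j, if (r : ℤ) ≤ m j then kk l m else 0) +
        ∑ i, ∑ j, (if i = j then 0 else kk l (mv m i j r)) := by
  classical
  have h1 : ∀ i j, kp (sb l i r) (sb m j r) = ∑ τ : Equiv.Perm (Fin k),
      if (((∀ x, 0 ≤ sb l i r x) ∧ (∀ x, 0 ≤ sb m j r x)) ∧
        ∀ x, sb m j r x = sb l i r (τ x)) then (Equiv.Perm.sign τ : ℤ) else 0 := by
    intro i j
    unfold kp kk
    by_cases h : (∀ x, 0 ≤ sb l i r x) ∧ (∀ x, 0 ≤ sb m j r x)
    · rw [if_pos h]
      refine sum_congr rfl fun τ _ => ?_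
      by_cases h2 : ∀ x, sb m j r x = sb l i r (τ x)
      · rw [if_pos h2, if_pos ⟨h, h2⟩]
      · rw [if_neg h2, if_neg (fun h3 => h2 h3.2)]
    · rw [if_neg h]
      symm
      refine sum_eq_zero fun τ _ => ?_
      rw [if_neg (fun h3 => h h3.1)]
  have h2 : ∑ i, ∑ j, kp (sb l i r) (sb m j r) = ∑ i, ∑ j, ∑ τ : Equiv.Perm (Fin k),
      if (if i = j then ((∀ x, m x = l (τ x)) ∧ (r : ℤ) ≤ m j) else
        ∀ x, mv m i j r x = l (τ x)) then (Equiv.Perm.sign τ : ℤ) else 0 := by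
    simp_rw [h1]
    have h3 : ∀ (F : Fin k → Fin k → Equiv.Perm (Fin k) → ℤ), ∑ i, ∑ j, ∑ τ, F i j τ =
        ∑ τ, ∑ j, ∑ i, F i j τ := by
      intro F
      rw [sum_comm]
      simp_rw [sum_comm (s := (univ : Finset (Fin k))) (t := (univ : Finset (Equiv.Perm (Fin k))))]
    rw [h3, h3]
    refine sum_congr rfl fun τ _ => sum_congr rfl fun j _ => ?_
    rw [← Equiv.sum_comp τ]
    refine sum_congr rfl fun i _ => ?_
    exact if_congr (cond_iff l m hl hm τ i j r) rfl rfl
  rw [h2]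
  have h4 : ∀ i j : Fin k, (∑ τ : Equiv.Perm (Fin k),
      if (if i = j then ((∀ x, m x = l (τ x)) ∧ (r : ℤ) ≤ m j) else
        ∀ x, mv m i j r x = l (τ x)) then (Equiv.Perm.sign τ : ℤ) else 0) =
      (if i = j then (if (r : ℤ) ≤ m j then kk l m else 0) else 0) +
        (if i = j then 0 else kk l (mv m i j r)) := by
    intro i j
    by_cases hij : i = j
    · rw [if_pos hij, if_pos hij, add_zero]
      by_cases hr : (r : ℤ) ≤ m j
      · rw [if_pos hr]
        unfold kk
        refine sum_congr rfl fun τ _ => ?_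
        exact if_congr (by rw [if_pos hij]; exact and_iff_left hr) rfl rfl
      · rw [if_neg hr]
        refine sum_eq_zero fun τ _ => ?_
        rw [if_neg]
        rw [if_pos hij]
        exact fun h => hr h.2
    · rw [if_neg hij, if_neg hij, zero_add]
      unfold kk
      refine sum_congr rfl fun τ _ => ?_
      exact if_congr (by rw [if_neg hij]) rfl rfl
  simp_rw [h4, sum_add_distrib]
  congr 1
  rw [sum_comm]
  refine sum_congr rfl fun j _ => ?_
  rw [sum_ite_eq' univ j (fun _ => if (r : ℤ) ≤ m j then kk l m else 0), if_pos (mem_univ _)]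

theorem sb_sum {k : ℕ} (l : Fin k → ℤ) (i : Fin k) (r : ℕ) :
    ∑ x, sb l i r x = ∑ x, l x - r := by
  have h1 : ∀ x, sb l i r x = l x - if x = i then (r : ℤ) else 0 := by
    intro x
    unfold sb
    split_ifs <;> ring
  simp_rw [h1, sum_sub_distrib]
  rw [sum_ite_eq' univ i (fun _ => (r : ℤ)), if_pos (mem_univ _)]

theorem t_KID : S_KID := by
  intro n k l m hl hm hsl hsm
  classical
  -- a common bound
  set L : ℕ := n + k.choose 2 with hL
  have hmL : ∀ i, m i ≤ L := by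
    intro i
    have h1 : m i ≤ ∑ x, m x := single_le_sum (f := m) (fun x _ => hm x) (mem_univ i)
    rw [hsm] at h1
    rw [hL]; push_cast; exact h1
  have hext : ∑ r ∈ Icc 1 n, ∑ i, ∑ j, kp (sb l i r) (sb m j r) =
      ∑ r ∈ Icc 1 L, ∑ i, ∑ j, kp (sb l i r) (sb m j r) := by
    refine sum_subset (Icc_subset_Icc_right (by omega)) fun r hr hrn => ?_
    rw [mem_Icc] at hr hrn
    refine sum_eq_zero fun i _ => sum_eq_zero fun j _ => ?_
    unfold kp
    split_ifs with h
    · obtain ⟨a, b, hab, hm2⟩ := not_inj (sb m j r) h.2 (by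
        rw [sb_sum, hsm]
        have : (n : ℤ) < r := by exact_mod_cast (by omega : n < r)
        linarith)
      exact kk_zero_right _ _ hab hm2
    · rfl
  rw [hext]
  have h1 : ∀ r ∈ Icc 1 L, ∑ i, ∑ j, kp (sb l i r) (sb m j r) =
      (∑ j, if (r : ℤ) ≤ m j then kk l m else 0) +
        ∑ i, ∑ j, (if i = j then 0 else kk l (mv m i j r)) := fun r _ => left_r l m hl hm r
  rw [sum_congr rfl h1, sum_add_distrib]
  -- the diagonal
  have hd : ∑ r ∈ Icc 1 L, ∑ j, (if (r : ℤ) ≤ m j then kk l m else 0) =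
      ((n : ℤ) + (k.choose 2 : ℕ)) * kk l m := by
    rw [sum_comm, ← hsm, sum_mul]
    refine sum_congr rfl fun j _ => ?_
    rw [← sum_filter, sum_const, nsmul_eq_mul]
    congr 1
    have h2 : (Icc 1 L).filter (fun r : ℕ => (r : ℤ) ≤ m j) = Icc 1 (m j).toNat := by
      ext r
      rw [mem_filter, mem_Icc, mem_Icc]
      have h3 := hmL j
      have h4 := hm j
      omega
    rw [h2, Nat.card_Icc, Nat.add_sub_cancel]
    exact Int.toNat_of_nonneg (hm j)
  -- the off diagonal part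
  set O : ℤ := ∑ r ∈ Icc 1 L, ∑ i, ∑ j, (if i = j then 0 else kk l (mv m i j r)) with hO
  have ho1 : O = ∑ i, ∑ j, ∑ r ∈ Icc 1 L, (if i = j then 0 else kk l (mv m i j r)) := by
    rw [hO, sum_comm]
    exact sum_congr rfl fun i _ => sum_comm
  have ho2 : O = ∑ i, ∑ j, ∑ r ∈ Icc 1 L, (if i = j then 0 else kk l (mv m j i r)) := by
    rw [ho1, sum_comm]
    refine sum_congr rfl fun j _ => sum_congr rfl fun i _ => sum_congr rfl fun r _ => ?_
    exact if_congr eq_comm rfl rfl
  have ho3 : O + O = ∑ i : Fin k, ∑ j : Fin k, (if i = j then 0 else - kk l m) := by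
    nth_rewrite 1 [ho1]
    rw [ho2, ← sum_add_distrib]
    refine sum_congr rfl fun i _ => ?_
    rw [← sum_add_distrib]
    refine sum_congr rfl fun j _ => ?_
    rw [← sum_add_distrib]
    by_cases hij : i = j
    · rw [if_pos hij]
      refine sum_eq_zero fun r _ => ?_
      rw [if_pos hij, if_pos hij, add_zero]
    · rw [if_neg hij, ← off_pair l m hl hm hij L hmL]
      refine sum_congr rfl fun r _ => ?_
      rw [if_neg hij, if_neg hij]
  have ho4 : ∑ i : Fin k, ∑ j : Fin k, (if i = j then 0 else - kk l m) =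
      - ((k : ℤ) * (k - 1)) * kk l m := by
    have h2 : ∀ i : Fin k, ∑ j : Fin k, (if i = j then (0 : ℤ) else - kk l m) =
        - ((k : ℤ) - 1) * kk l m := by
      intro i
      have h3 : ∀ j : Fin k, (if i = j then (0 : ℤ) else - kk l m) =
          - kk l m + (if i = j then kk l m else 0) := by
        intro j; split_ifs <;> ring
      simp_rw [h3, sum_add_distrib]
      rw [sum_const, card_univ, Fintype.card_fin, nsmul_eq_mul,
        sum_ite_eq univ i (fun _ => kk l m), if_pos (mem_univ _)]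
      ring
    simp_rw [h2]
    rw [sum_const, card_univ, Fintype.card_fin, nsmul_eq_mul]
    ring
  have hc : (2 : ℤ) * (k.choose 2 : ℕ) = (k : ℤ) * (k - 1) := by
    have h2 : 2 * k.choose 2 = k * (k - 1) := by
      rw [Nat.choose_two_right]
      exact Nat.mul_div_cancel' (Nat.even_mul_pred_self k).two_dvd
    rcases Nat.eq_zero_or_pos k with rfl | hk
    · simp
    · have h3 : ((2 * k.choose 2 : ℕ) : ℤ) = ((k * (k - 1) : ℕ) : ℤ) := by rw [h2]
      rw [Nat.cast_mul, Nat.cast_mul, Nat.cast_sub hk] at h3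
      exact_mod_cast h3
  rw [hd]
  have h5 : (2 : ℤ) * ((((n : ℤ) + (k.choose 2 : ℕ)) * kk l m) + O) = 2 * ((n : ℤ) * kk l m) := by
    have h6 : (2 : ℤ) * O = - (2 * (k.choose 2 : ℕ)) * kk l m := by
      rw [two_mul O, ho3, ho4, hc]
    linear_combination h6
  exact mul_left_cancel₀ two_ne_zero h5

end Pool.Agent.Run7.h722.ZN
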