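import Pool.Agent.Run7.h601.ZN.Stm

/-!
# Project ZN, piece REC
-/

set_option autoImplicit false

namespace Pool.Agent.Run7.h722.ZN

open Finset
open Pool.Agent.Run7.h601.ZN

/-- the matrices -/
def MS (n : ℕ) {k : ℕ} (α β : Fin k → ℤ) : Finset (Fin k × Fin k → ℕ) :=
  (piAntidiag (univ : Finset (Fin k × Fin k)) n).filter (fun A : Fin k × Fin k → ℕ =>
    (∀ i, ((∑ j, A (i, j) : ℕ) : ℤ) = α i) ∧ (∀ j, ((∑ i, A (i, j) : ℕ) : ℤ) = β j))

theorem mat_eq (n : ℕ) {k : ℕ} (α β : Fin k → ℤ) : mat n α β = ((MS n α β).card : ℤ) := rfl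

theorem mem_MS {n k : ℕ} {α β : Fin k → ℤ} {A : Fin k × Fin k → ℕ} :
    A ∈ MS n α β ↔ (∑ x, A x = n) ∧ (∀ i, ((∑ j, A (i, j) : ℕ) : ℤ) = α i) ∧
      (∀ j, ((∑ i, A (i, j) : ℕ) : ℤ) = β j) := by
  unfold MS
  rw [mem_filter, mem_piAntidiag]
  constructor
  · rintro ⟨⟨h1, _⟩, h2⟩
    exact ⟨h1, h2⟩
  · rintro ⟨h1, h2⟩
    exact ⟨⟨h1, fun i _ => mem_univ i⟩, h2⟩

/-- add `r` to one entry -/
def ad {k : ℕ} (i j : Fin k) (r : ℕ) (B : Fin k × Fin k → ℕ) : Fin k × Fin k → ℕ :=
  fun x => B x + if x = (i, j) then r else 0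

theorem ad_sum {k : ℕ} (i j : Fin k) (r : ℕ) (B : Fin k × Fin k → ℕ) :
    ∑ x, ad i j r B x = ∑ x, B x + r := by
  unfold ad
  rw [sum_add_distrib, sum_ite_eq' univ (i, j) (fun _ => r), if_pos (mem_univ _)]

theorem ad_row {k : ℕ} (i j : Fin k) (r : ℕ) (B : Fin k × Fin k → ℕ) (a : Fin k) :
    ∑ b, ad i j r B (a, b) = ∑ b, B (a, b) + if a = i then r else 0 := by
  unfold ad
  rw [sum_add_distrib]
  congr 1
  by_cases h : a = i
  · rw [if_pos h]
    subst h
    have : ∀ b : Fin k, (if (a, b) = (a, j) then r else 0) = if b = j then r else 0 := by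
      intro b
      by_cases hb : b = j
      · rw [if_pos hb, if_pos (by rw [hb])]
      · rw [if_neg hb, if_neg (by rw [Prod.mk.injEq]; tauto)]
    simp_rw [this]
    rw [sum_ite_eq' univ j (fun _ => r), if_pos (mem_univ _)]
  · rw [if_neg h]
    refine sum_eq_zero fun b _ => ?_
    rw [if_neg (by rw [Prod.mk.injEq]; tauto)]

theorem ad_col {k : ℕ} (i j : Fin k) (r : ℕ) (B : Fin k × Fin k → ℕ) (b : Fin k) :
    ∑ a, ad i j r B (a, b) = ∑ a, B (a, b) + if b = j then r else 0 := by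
  unfold ad
  rw [sum_add_distrib]
  congr 1
  by_cases h : b = j
  · rw [if_pos h]
    subst h
    have : ∀ a : Fin k, (if (a, b) = (i, b) then r else 0) = if a = i then r else 0 := by
      intro a
      by_cases hb : a = i
      · rw [if_pos hb, if_pos (by rw [hb])]
      · rw [if_neg hb, if_neg (by rw [Prod.mk.injEq]; tauto)]
    simp_rw [this]
    rw [sum_ite_eq' univ i (fun _ => r), if_pos (mem_univ _)]
  · rw [if_neg h]
    refine sum_eq_zero fun b _ => ?_
    rw [if_neg (by rw [Prod.mk.injEq]; tauto)]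

theorem ad_mem {n k : ℕ} (α β : Fin k → ℤ) (i j : Fin k) (r : ℕ) (hr : r ≤ n)
    (B : Fin k × Fin k → ℕ) :
    ad i j r B ∈ MS n α β ↔ B ∈ MS (n - r) (sb α i r) (sb β j r) := by
  rw [mem_MS, mem_MS, ad_sum]
  refine and_congr (by omega) (and_congr ?_ ?_)
  · refine forall_congr' fun a => ?_
    rw [ad_row]
    unfold sb
    by_cases h : a = i
    · rw [if_pos h, if_pos h]; push_cast; constructor <;> intro h1 <;> linarith
    · rw [if_neg h, if_neg h, add_zero]
  · refine forall_congr' fun b => ?_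
    rw [ad_col]
    unfold sb
    by_cases h : b = j
    · rw [if_pos h, if_pos h]; push_cast; constructor <;> intro h1 <;> linarith
    · rw [if_neg h, if_neg h, add_zero]

theorem card_ge {n k : ℕ} (α β : Fin k → ℤ) (i j : Fin k) (r : ℕ) (hr : r ≤ n) :
    ((MS n α β).filter (fun A => r ≤ A (i, j))).card = (MS (n - r) (sb α i r) (sb β j r)).card := by
  symm
  refine card_bij (fun B _ => ad i j r B) ?_ ?_ ?_
  · intro B hB
    rw [mem_filter]
    refine ⟨(ad_mem α β i j r hr B).2 hB, ?_⟩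
    unfold ad
    rw [if_pos rfl]
    exact Nat.le_add_left _ _
  · intro B _ C _ h
    funext x
    have := congrFun h x
    unfold ad at this
    omega
  · intro A hA
    rw [mem_filter] at hA
    have h1 : ad i j r (fun x => A x - if x = (i, j) then r else 0) = A := by
      funext x
      unfold ad
      by_cases h : x = (i, j)
      · simp only [if_pos h]
        rw [h]
        have := hA.2
        omega
      · simp only [if_neg h]
        omega
    refine ⟨fun x => A x - if x = (i, j) then r else 0, ?_, h1⟩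
    rw [← ad_mem α β i j r hr, h1]
    exact hA.1

theorem t_REC : S_REC := by
  intro n k α β
  have h1 : ∀ A ∈ MS n α β, (n : ℤ) =
      ∑ r ∈ Icc 1 n, ∑ i : Fin k, ∑ j : Fin k, (if r ≤ A (i, j) then (1 : ℤ) else 0) := by
    intro A hA
    have h2 := (mem_MS.1 hA).1
    rw [sum_comm]
    have h3 : ∀ i j : Fin k, ∑ r ∈ Icc 1 n, (if r ≤ A (i, j) then (1 : ℤ) else 0) = A (i, j) := by
      intro i j
      have h4 : A (i, j) ≤ n := by
        rw [← h2]
        exact single_le_sum (f := A) (fun _ _ => Nat.zero_le _) (mem_univ (i, j))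
      rw [← sum_filter, sum_const, nsmul_eq_mul, mul_one]
      have h5 : (Icc 1 n).filter (fun r => r ≤ A (i, j)) = Icc 1 (A (i, j)) := by
        ext r
        rw [mem_filter, mem_Icc, mem_Icc]
        omega
      rw [h5, Nat.card_Icc, Nat.add_sub_cancel]
    have h6 : ∀ i : Fin k, ∑ r ∈ Icc 1 n, ∑ j : Fin k, (if r ≤ A (i, j) then (1 : ℤ) else 0) =
        ∑ j, (A (i, j) : ℤ) := by
      intro i
      rw [sum_comm]
      exact sum_congr rfl fun j _ => h3 i j
    simp_rw [h6]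
    rw [← Fintype.sum_prod_type' (f := fun i j => ((A (i, j) : ℕ) : ℤ))]
    rw [← h2]
    push_cast
    rfl
  rw [mat_eq, mul_comm, card_eq_sum_ones, Nat.cast_sum, sum_mul]
  have h2 : ∀ A ∈ MS n α β, ((1 : ℕ) : ℤ) * (n : ℤ) =
      ∑ r ∈ Icc 1 n, ∑ i : Fin k, ∑ j : Fin k, (if r ≤ A (i, j) then (1 : ℤ) else 0) := by
    intro A hA
    rw [Nat.cast_one, one_mul]
    exact h1 A hA
  rw [sum_congr rfl h2, sum_comm]
  refine sum_congr rfl fun r hr => ?_
  rw [sum_comm]
  refine sum_congr rfl fun i _ => ?_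
  rw [sum_comm]
  refine sum_congr rfl fun j _ => ?_
  rw [mat_eq, ← card_ge α β i j r (mem_Icc.1 hr).2, ← sum_filter, sum_const, nsmul_eq_mul, mul_one]

end Pool.Agent.Run7.h722.ZN
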