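import Pool.Agent.Run7.h722.ZN.REC
import Pool.Agent.Run7.h722.ZN.KID

/-!
# Project ZN, piece ORT
-/

set_option autoImplicit false

namespace Pool.Agent.Run7.h722.ZN

open Finset
open Pool.Agent.Run7.h601.ZN

theorem mat_neg_left {n k : ℕ} (α β : Fin k → ℤ) {a : Fin k} (ha : α a < 0) : mat n α β = 0 := by
  rw [mat_eq, Nat.cast_eq_zero, card_eq_zero, eq_empty_iff_forall_notMem]
  intro A hA
  have := (mem_MS.1 hA).2.1 a
  omega

theorem mat_neg_right {n k : ℕ} (α β : Fin k → ℤ) {a : Fin k} (ha : β a < 0) : mat n α β = 0 := by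
  rw [mat_eq, Nat.cast_eq_zero, card_eq_zero, eq_empty_iff_forall_notMem]
  intro A hA
  have := (mem_MS.1 hA).2.2 a
  omega

theorem mat_zero {k : ℕ} (α β : Fin k → ℤ) :
    mat 0 α β = (if ∀ i, α i = 0 then 1 else 0) * (if ∀ i, β i = 0 then 1 else 0) := by
  rw [mat_eq]
  by_cases h : (∀ i, α i = 0) ∧ ∀ i, β i = 0
  · rw [if_pos h.1, if_pos h.2]
    have : MS 0 α β = {fun _ => 0} := by
      ext A
      rw [mem_MS, mem_singleton]
      constructor
      · rintro ⟨h1, -, -⟩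
        funext x
        exact (sum_eq_zero_iff.1 h1) x (mem_univ x)
      · rintro rfl
        refine ⟨by simp, fun i => ?_, fun j => ?_⟩
        · rw [h.1]; simp
        · rw [h.2]; simp
    rw [this, card_singleton]
    norm_num
  · have h2 : MS 0 α β = ∅ := by
      rw [eq_empty_iff_forall_notMem]
      intro A hA
      obtain ⟨h1, h3, h4⟩ := mem_MS.1 hA
      have h5 : ∀ x, A x = 0 := fun x => (sum_eq_zero_iff.1 h1) x (mem_univ x)
      refine h ⟨fun i => ?_, fun j => ?_⟩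
      · rw [← h3 i]; simp [h5]
      · rw [← h4 j]; simp [h5]
    rw [h2, card_empty, Nat.cast_zero]
    by_cases h3 : ∀ i, α i = 0
    · rw [if_neg (fun h4 => h ⟨h3, h4⟩), mul_zero]
    · rw [if_neg h3, zero_mul]

theorem sb_sub {k : ℕ} (l : Fin k → ℤ) (τ : Equiv.Perm (Fin k)) (i : Fin k) (r : ℕ) :
    sb (fun x => l x - ((τ x : ℕ) : ℤ)) i r = fun x => sb l i r x - ((τ x : ℕ) : ℤ) := by
  funext x
  unfold sb
  split_ifs <;> ring

/-- the left side -/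
def LS (n : ℕ) {k : ℕ} (l m : Fin k → ℤ) : ℤ :=
  ∑ τ : Equiv.Perm (Fin k), ∑ τ' : Equiv.Perm (Fin k),
    (Equiv.Perm.sign τ : ℤ) * (Equiv.Perm.sign τ' : ℤ) *
      mat n (fun i => l i - ((τ i : ℕ) : ℤ)) (fun i => m i - ((τ' i : ℕ) : ℤ))

/-- signed count of the permutations equal to `l` -/
def eqs {k : ℕ} (l : Fin k → ℤ) : ℤ :=
  ∑ τ : Equiv.Perm (Fin k), (Equiv.Perm.sign τ : ℤ) *
    (if ∀ i, l i - ((τ i : ℕ) : ℤ) = 0 then 1 else 0)

theorem LS_zero {k : ℕ} (l m : Fin k → ℤ) : LS 0 l m = eqs l * eqs m := by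
  unfold LS eqs
  rw [sum_mul_sum]
  refine sum_congr rfl fun τ _ => sum_congr rfl fun τ' _ => ?_
  rw [mat_zero]
  ring

theorem eqs_perm {k : ℕ} (l : Fin k → ℤ) (ρ : Equiv.Perm (Fin k))
    (h : ∀ i, l i = ((ρ i : ℕ) : ℤ)) : eqs l = (Equiv.Perm.sign ρ : ℤ) := by
  unfold eqs
  rw [sum_eq_single ρ]
  · rw [if_pos (fun i => by rw [h i]; ring), mul_one]
  · intro τ _ hτ
    rw [if_neg, mul_zero]
    intro h2
    apply hτ
    ext i
    have h3 := h2 i
    rw [h i] at h3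
    omega
  · intro h2
    exact absurd (mem_univ ρ) h2

theorem eqs_not {k : ℕ} (l : Fin k → ℤ) (h : ¬ Function.Injective l) : eqs l = 0 := by
  unfold eqs
  refine sum_eq_zero fun τ _ => ?_
  rw [if_neg, mul_zero]
  intro h2
  apply h
  intro a b hab
  have h3 := h2 a
  have h4 := h2 b
  apply τ.injective
  apply Fin.ext
  omega

theorem kk_perm {k : ℕ} (l m : Fin k → ℤ) (ρ : Equiv.Perm (Fin k))
    (h : ∀ i, l i = ((ρ i : ℕ) : ℤ)) : kk l m = (Equiv.Perm.sign ρ : ℤ) * eqs m := by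
  have h1 : l = fun x => (fun y : Fin k => ((y : ℕ) : ℤ)) (ρ x) := funext h
  have h2 : kk l m = (Equiv.Perm.sign ρ : ℤ) * kk (fun y : Fin k => ((y : ℕ) : ℤ)) m := by
    rw [h1]
    exact kk_comp_left (fun y : Fin k => ((y : ℕ) : ℤ)) m ρ
  rw [h2]
  congr 1
  unfold kk eqs
  refine sum_congr rfl fun τ _ => ?_
  by_cases h3 : ∀ i, m i = ((τ i : ℕ) : ℤ)
  · rw [if_pos h3, if_pos (fun i => by rw [h3 i]; ring), mul_one]
  · rw [if_neg h3, if_neg, mul_zero]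
    intro h4
    exact h3 fun i => sub_eq_zero.1 (h4 i)

theorem LS_step {k : ℕ} (hR : S_REC) (n : ℕ) (l m : Fin k → ℤ) :
    (n : ℤ) * LS n l m = ∑ r ∈ Icc 1 n, ∑ i, ∑ j, LS (n - r) (sb l i r) (sb m j r) := by
  have h1 : (n : ℤ) * LS n l m = ∑ τ : Equiv.Perm (Fin k), ∑ τ' : Equiv.Perm (Fin k),
      ∑ r ∈ Icc 1 n, ∑ i, ∑ j, (Equiv.Perm.sign τ : ℤ) * (Equiv.Perm.sign τ' : ℤ) *
        mat (n - r) (fun x => sb l i r x - ((τ x : ℕ) : ℤ))
          (fun x => sb m j r x - ((τ' x : ℕ) : ℤ)) := by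
    unfold LS
    rw [mul_sum]
    refine sum_congr rfl fun τ _ => ?_
    rw [mul_sum]
    refine sum_congr rfl fun τ' _ => ?_
    have h2 := hR n k (fun i => l i - ((τ i : ℕ) : ℤ)) (fun i => m i - ((τ' i : ℕ) : ℤ))
    have h3 : (n : ℤ) * ((Equiv.Perm.sign τ : ℤ) * (Equiv.Perm.sign τ' : ℤ) *
        mat n (fun i => l i - ((τ i : ℕ) : ℤ)) (fun i => m i - ((τ' i : ℕ) : ℤ))) =
        (Equiv.Perm.sign τ : ℤ) * (Equiv.Perm.sign τ' : ℤ) *
        ((n : ℤ) * mat n (fun i => l i - ((τ i : ℕ) : ℤ)) (fun i => m i - ((τ' i : ℕ) : ℤ))) := by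
      ring
    rw [h3, h2, mul_sum]
    refine sum_congr rfl fun r _ => ?_
    rw [mul_sum]
    refine sum_congr rfl fun i _ => ?_
    rw [mul_sum]
    refine sum_congr rfl fun j _ => ?_
    rw [sb_sub, sb_sub]
  rw [h1]
  unfold LS
  have h4 : ∀ (F : Equiv.Perm (Fin k) → Equiv.Perm (Fin k) → ℕ → Fin k → Fin k → ℤ),
      ∑ τ, ∑ τ', ∑ r ∈ Icc 1 n, ∑ i, ∑ j, F τ τ' r i j =
      ∑ r ∈ Icc 1 n, ∑ i, ∑ j, ∑ τ, ∑ τ', F τ τ' r i j := by
    intro F
    calc ∑ τ, ∑ τ', ∑ r ∈ Icc 1 n, ∑ i, ∑ j, F τ τ' r i j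
        = ∑ τ, ∑ r ∈ Icc 1 n, ∑ τ', ∑ i, ∑ j, F τ τ' r i j :=
          sum_congr rfl fun τ _ => sum_comm
      _ = ∑ r ∈ Icc 1 n, ∑ τ, ∑ τ', ∑ i, ∑ j, F τ τ' r i j := sum_comm
      _ = ∑ r ∈ Icc 1 n, ∑ i, ∑ j, ∑ τ, ∑ τ', F τ τ' r i j := by
          refine sum_congr rfl fun r _ => ?_
          calc ∑ τ, ∑ τ', ∑ i, ∑ j, F τ τ' r i j
              = ∑ τ, ∑ i, ∑ τ', ∑ j, F τ τ' r i j := sum_congr rfl fun τ _ => sum_comm
            _ = ∑ i, ∑ τ, ∑ τ', ∑ j, F τ τ' r i j := sum_comm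
            _ = ∑ i, ∑ j, ∑ τ, ∑ τ', F τ τ' r i j := by
                refine sum_congr rfl fun i _ => ?_
                calc ∑ τ, ∑ τ', ∑ j, F τ τ' r i j
                    = ∑ τ, ∑ j, ∑ τ', F τ τ' r i j := sum_congr rfl fun τ _ => sum_comm
                  _ = ∑ j, ∑ τ, ∑ τ', F τ τ' r i j := sum_comm
  exact h4 _

theorem LS_neg {n k : ℕ} (l m : Fin k → ℤ) (h : ¬ ((∀ i, 0 ≤ l i) ∧ (∀ i, 0 ≤ m i))) :
    LS n l m = 0 := by
  unfold LS
  refine sum_eq_zero fun τ _ => sum_eq_zero fun τ' _ => ?_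
  rw [not_and_or] at h
  rcases h with h | h
  · push Not at h
    obtain ⟨a, ha⟩ := h
    rw [mat_neg_left _ _ (a := a) (by omega), mul_zero]
  · push Not at h
    obtain ⟨a, ha⟩ := h
    rw [mat_neg_right _ _ (a := a) (by omega), mul_zero]

theorem LS_eq (hR : S_REC) (hK : S_KID) (k : ℕ) : ∀ (n : ℕ) (l m : Fin k → ℤ),
    ∑ i, l i = n + (k.choose 2 : ℕ) → ∑ i, m i = n + (k.choose 2 : ℕ) →
    LS n l m = kp l m := by
  intro n
  induction n using Nat.strong_induction_on with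
  | _ n ih =>
    intro l m hsl hsm
    by_cases hlm : (∀ i, 0 ≤ l i) ∧ (∀ i, 0 ≤ m i)
    · unfold kp
      rw [if_pos hlm]
      rcases Nat.eq_zero_or_pos n with rfl | hn
      · rw [LS_zero]
        by_cases hinj : Function.Injective l
        · obtain ⟨ρ, hρ⟩ := inj_perm l hlm.1 hinj (by rw [hsl]; push_cast; ring)
          rw [eqs_perm l ρ hρ, kk_perm l m ρ hρ]
        · rw [eqs_not l hinj, zero_mul]
          unfold Function.Injective at hinj
          push Not at hinj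
          obtain ⟨a, b, hab, hne⟩ := hinj
          exact (kk_zero_left l m hne hab).symm
      · have h1 := LS_step hR n l m
        have h2 : ∑ r ∈ Icc 1 n, ∑ i, ∑ j, LS (n - r) (sb l i r) (sb m j r) =
            ∑ r ∈ Icc 1 n, ∑ i, ∑ j, kp (sb l i r) (sb m j r) := by
          refine sum_congr rfl fun r hr => sum_congr rfl fun i _ => sum_congr rfl fun j _ => ?_
          rw [mem_Icc] at hr
          refine ih (n - r) (by omega) _ _ ?_ ?_
          · rw [sb_sum, hsl, Nat.cast_sub hr.2]; ring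
          · rw [sb_sum, hsm, Nat.cast_sub hr.2]; ring
        rw [h2, hK n k l m hlm.1 hlm.2 hsl hsm] at h1
        have hn' : (n : ℤ) ≠ 0 := by exact_mod_cast hn.ne'
        exact mul_left_cancel₀ hn' h1
    · rw [LS_neg l m hlm]
      unfold kp
      rw [if_neg hlm]

theorem t_ORT : S_ORT := by
  intro hR hK n k l m hsl hsm
  exact LS_eq hR hK k n l m hsl hsm

end Pool.Agent.Run7.h722.ZN
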